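import Mathlib

/-!
# Lemmas on divisors of products of binomials, for `StSplit`
-/

set_option autoImplicit false
set_option linter.all false
set_option maxHeartbeats 400000

open Polynomial

namespace Pool.Agent.Y691.FT2

/-- a divisor of a power of a product of irreducible monic polynomials -/
theorem exists_exps {k : Type} [Field k] {m : ℕ} (P : Fin m → k[X]) (hirr : ∀ i, Irreducible (P i))
    (A : k[X]) (n : ℕ) (hA : A ∣ (∏ i, P i) ^ n) :
    ∃ (a : k) (e : Fin m → ℕ), a ≠ 0 ∧ A = C a * ∏ i, P i ^ e i := by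
  have hP0 : (∏ i, P i) ^ n ≠ 0 := pow_ne_zero _ (Finset.prod_ne_zero_iff.2 fun i _ => (hirr i).ne_zero)
  revert hA
  induction A using UniqueFactorizationMonoid.induction_on_prime with
  | h₁ => intro hA; exact absurd (zero_dvd_iff.1 hA) hP0
  | h₂ x hx =>
    intro hA
    obtain ⟨r, hr, hrx⟩ := Polynomial.isUnit_iff.1 hx
    exact ⟨r, fun _ => 0, hr.ne_zero, by simp [hrx]⟩
  | h₃ a p ha hp ih =>
    intro hA
    obtain ⟨c, e, hc, hce⟩ := ih ((dvd_mul_left a p).trans hA)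
    have hp1 : p ∣ ∏ i, P i := hp.dvd_of_dvd_pow ((dvd_mul_right p a).trans hA)
    obtain ⟨i, _, hi⟩ := (hp.dvd_finset_prod_iff _).1 hp1
    obtain ⟨u, hu⟩ := hp.irreducible.associated_of_dvd (hirr i) hi
    obtain ⟨r, hr, hru⟩ := Polynomial.isUnit_iff.1 u.isUnit
    refine ⟨r⁻¹ * c, fun j => e j + if j = i then 1 else 0, mul_ne_zero (inv_ne_zero hr.ne_zero) hc, ?_⟩
    have h1 : ∏ j, P j ^ (e j + if j = i then 1 else 0) = (∏ j, P j ^ e j) * P i := by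
      simp_rw [pow_add, Finset.prod_mul_distrib]
      congr 1
      rw [Finset.prod_eq_single i]
      · simp
      · intro j _ hj; simp [hj]
      · intro h; exact absurd (Finset.mem_univ i) h
    rw [h1, ← hu, hce, ← hru, C_mul]
    have h2 : (C r⁻¹ : k[X]) * C r = 1 := by rw [← C_mul, inv_mul_cancel₀ hr.ne_zero, C_1]
    calc p * (C c * ∏ i, P i ^ e i) = 1 * (p * (C c * ∏ i, P i ^ e i)) := by ring
      _ = _ := by rw [← h2]; ring

/-- a constant which is an `ℓ`-th power modulo `p` is an `ℓ`-th power -/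
theorem const_pow {k : Type} [Field k] {p : k[X]} (hp : Irreducible p) {ℓ : ℕ} (hℓ : 0 < ℓ)
    (hc : ℓ.Coprime p.natDegree) (κ : k) (w : k[X]) (h : p ∣ C κ - w ^ ℓ) : ∃ y : k, κ = y ^ ℓ := by
  by_cases hκ : κ = 0
  · exact ⟨0, by rw [hκ, zero_pow hℓ.ne']⟩
  haveI : Fact (Irreducible p) := ⟨hp⟩
  have h1 : (algebraMap k (AdjoinRoot p)) κ = (AdjoinRoot.mk p w) ^ ℓ := by
    rw [← map_pow, AdjoinRoot.algebraMap_eq, ← AdjoinRoot.mk_C]
    exact AdjoinRoot.mk_eq_mk.2 h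
  have hfr : Module.finrank k (AdjoinRoot p) = p.natDegree := by
    rw [(AdjoinRoot.powerBasis hp.ne_zero).finrank, AdjoinRoot.powerBasis_dim]
  have h2 : κ ^ p.natDegree = (Algebra.norm k (AdjoinRoot.mk p w)) ^ ℓ := by
    have := congrArg (Algebra.norm k) h1
    rw [Algebra.norm_algebraMap, map_pow, hfr] at this
    exact this
  set y₀ := Algebra.norm k (AdjoinRoot.mk p w) with hy₀
  have hbez : ((1 : ℕ) : ℤ) = (ℓ : ℤ) * ℓ.gcdA p.natDegree + (p.natDegree : ℤ) * ℓ.gcdB p.natDegree := by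
    have := Nat.gcd_eq_gcd_ab ℓ p.natDegree
    rw [hc] at this
    exact this
  refine ⟨κ ^ (ℓ.gcdA p.natDegree) * y₀ ^ (ℓ.gcdB p.natDegree), ?_⟩
  have h3 : κ = κ ^ ((1 : ℕ) : ℤ) := by simp
  conv_lhs => rw [h3, hbez, zpow_add₀ hκ, zpow_mul, zpow_mul, zpow_natCast, zpow_natCast, h2]
  rw [mul_pow, ← zpow_natCast (κ ^ ℓ.gcdA p.natDegree), ← zpow_natCast (y₀ ^ ℓ.gcdB p.natDegree),
    ← zpow_mul, ← zpow_mul, ← zpow_natCast κ, ← zpow_natCast y₀, ← zpow_mul, ← zpow_mul, mul_comm (ℓ : ℤ),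
    mul_comm (ℓ : ℤ)]

/-- the product modulo `p` -/
theorem prod_mod {k : Type} [Field k] {ι : Type} (s : Finset ι) (P : ι → k[X]) (δ : ι → k)
    (e : ι → ℕ) (p : k[X]) (h : ∀ i ∈ s, p ∣ P i - C (δ i)) :
    p ∣ ∏ i ∈ s, P i ^ e i - C (∏ i ∈ s, δ i ^ e i) := by
  rw [← AdjoinRoot.mk_eq_mk, map_prod, map_prod, map_prod]
  refine Finset.prod_congr rfl fun i hi => ?_
  rw [map_pow, map_pow, map_pow, AdjoinRoot.mk_eq_mk.2 (h i hi)]

/-- from a congruence of polynomials to a power in `k` -/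
theorem pow_of_dvd {k : Type} [Field k] {m : ℕ} (P : Fin m → k[X]) (δ : Fin m → k)
    (e : Fin m → ℕ) {p : k[X]} (hp : Irreducible p) {ℓ : ℕ} (hℓ : 0 < ℓ)
    (hc : ℓ.Coprime p.natDegree) (h : ∀ i, p ∣ P i - C (δ i)) (c a : k) (w : k[X])
    (hw : p ∣ C c * (C a * ∏ i, P i ^ e i) - w ^ ℓ) :
    ∃ y : k, c * a * ∏ i, δ i ^ e i = y ^ ℓ := by
  refine const_pow hp hℓ hc _ w ?_
  have h1 := prod_mod Finset.univ P δ e p fun i _ => h i
  have h2 : C (c * a * ∏ i, δ i ^ e i) - w ^ ℓ =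
      (C c * (C a * ∏ i, P i ^ e i) - w ^ ℓ) - C (c * a) * (∏ i, P i ^ e i - C (∏ i, δ i ^ e i)) := by
    rw [C_mul, C_mul]; ring
  rw [h2]
  exact dvd_sub hw (Dvd.dvd.mul_left h1 _)

/-- if all exponents are congruent, the product is trivial -/
theorem triv_of_cong {k : Type} [Field k] {m : ℕ} (P : Fin m → k[X]) (e : Fin m → ℕ) (a : k)
    (ha : a ≠ 0) (ℓ : ℕ) (h : ∀ i j, e i ≡ e j [MOD ℓ]) :
    ∃ (c : k) (j : ℕ) (w : k[X]), c ≠ 0 ∧ C a * ∏ i, P i ^ e i = C c * (∏ i, P i) ^ j * w ^ ℓ := by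
  rcases Nat.eq_zero_or_pos m with hm | hm
  · subst hm
    exact ⟨a, 0, 1, ha, by simp⟩
  · let i₀ : Fin m := ⟨0, hm⟩
    refine ⟨a, e i₀ % ℓ, ∏ i, P i ^ (e i / ℓ), ha, ?_⟩
    rw [mul_assoc]
    congr 1
    rw [← Finset.prod_pow, ← Finset.prod_pow, ← Finset.prod_mul_distrib]
    refine Finset.prod_congr rfl fun i _ => ?_
    rw [← pow_mul, ← pow_add]
    congr 1
    have : e i % ℓ = e i₀ % ℓ := h i i₀
    rw [← this, mul_comm (e i / ℓ)]
    exact (Nat.mod_add_div _ _).symm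

/-- the local condition at a prime factor -/
theorem redei_step {k : Type} [Field k] {m : ℕ} (P : Fin m → k[X]) (δ : Fin m → Fin m → k)
    (hirr : ∀ i, Irreducible (P i)) (hδ : ∀ i j, P i ∣ P j - C (δ i j))
    (hne : ∀ i j, i ≠ j → δ i j ≠ 0) {ℓ : ℕ} (hℓ : 0 < ℓ) (hc : ∀ i, ℓ.Coprime (P i).natDegree)
    (e : Fin m → ℕ) (c a : k) (hc0 : c ≠ 0) (ha0 : a ≠ 0) (i : Fin m) (e' : ℕ) (w : k[X])
    (hw : ¬ P i ∣ w)
    (h : P i ^ (e' + 1) ∣ C c * (C a * ∏ j, P j ^ e j) - (∏ j, P j) ^ e' * w ^ ℓ) :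
    ∃ y : k, y ≠ 0 ∧ c * a * ∏ j ∈ Finset.univ.erase i, δ i j ^ e j =
      (∏ j ∈ Finset.univ.erase i, δ i j) ^ e i * y ^ ℓ := by
  have hprime : Prime (P i) := (hirr i).prime
  have hnd : ∀ j, j ≠ i → ¬ P i ∣ P j := by
    intro j hj hd
    have h1 : P i ∣ C (δ i j) := by
      have := dvd_sub hd (hδ i j)
      rwa [sub_sub_cancel] at this
    exact hprime.not_unit (isUnit_of_dvd_unit h1 (isUnit_C.2 (isUnit_iff_ne_zero.2 (hne i j hj.symm))))
  have hA : ∏ j, P j ^ e j = P i ^ e i * ∏ j ∈ Finset.univ.erase i, P j ^ e j :=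
    (Finset.mul_prod_erase _ _ (Finset.mem_univ i)).symm
  have hg : ∏ j, P j = P i * ∏ j ∈ Finset.univ.erase i, P j :=
    (Finset.mul_prod_erase _ _ (Finset.mem_univ i)).symm
  set A' := ∏ j ∈ Finset.univ.erase i, P j ^ e j with hA'
  set g' := ∏ j ∈ Finset.univ.erase i, P j with hg'
  have hA'd : ¬ P i ∣ A' := by
    intro hd
    obtain ⟨j, hj, hjd⟩ := (hprime.dvd_finset_prod_iff _).1 hd
    exact hnd j (Finset.ne_of_mem_erase hj) (hprime.dvd_of_dvd_pow hjd)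
  have hg'd : ¬ P i ∣ g' := by
    intro hd
    obtain ⟨j, hj, hjd⟩ := (hprime.dvd_finset_prod_iff _).1 hd
    exact hnd j (Finset.ne_of_mem_erase hj) hjd
  rw [hA, hg] at h
  have hcad : ¬ P i ∣ C c * C a * A' := by
    intro hd
    rcases hprime.dvd_or_dvd hd with h1 | h1
    · rw [← C_mul] at h1
      exact hprime.not_unit (isUnit_of_dvd_unit h1 (isUnit_C.2 (isUnit_iff_ne_zero.2 (mul_ne_zero hc0 ha0))))
    · exact hA'd h1
  have hwd : ∀ n, ¬ P i ∣ g' ^ n * w ^ ℓ := by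
    intro n hd
    rcases hprime.dvd_or_dvd hd with h1 | h1
    · exact hg'd (hprime.dvd_of_dvd_pow h1)
    · exact hw (hprime.dvd_of_dvd_pow h1)
  have hPn : ∀ n, P i ^ n ≠ 0 := fun n => pow_ne_zero _ hprime.ne_zero
  have heq : e i = e' := by
    rcases lt_trichotomy (e i) e' with hlt | heq | hgt
    · exfalso
      have h1 : P i ^ (e i + 1) ∣ C c * (C a * (P i ^ e i * A')) - (P i * g') ^ e' * w ^ ℓ :=
        (pow_dvd_pow _ (by omega)).trans h
      have h2 : P i ^ (e i + 1) ∣ (P i * g') ^ e' * w ^ ℓ := by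
        rw [mul_pow, mul_assoc]
        exact Dvd.dvd.mul_right (pow_dvd_pow _ (by omega)) _
      have h3 : P i ^ (e i + 1) ∣ C c * (C a * (P i ^ e i * A')) := by
        have := dvd_add h1 h2
        rwa [sub_add_cancel] at this
      have h4 : P i ^ e i * P i ∣ P i ^ e i * (C c * C a * A') := by
        rw [← pow_succ]
        have h5 : P i ^ e i * (C c * C a * A') = C c * (C a * (P i ^ e i * A')) := by ring
        rw [h5]; exact h3
      exact hcad ((mul_dvd_mul_iff_left (hPn _)).1 h4)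
    · exact heq
    · exfalso
      have h2 : P i ^ (e' + 1) ∣ C c * (C a * (P i ^ e i * A')) := by
        have h5 : C c * (C a * (P i ^ e i * A')) = P i ^ e i * (C c * C a * A') := by ring
        rw [h5]
        exact Dvd.dvd.mul_right (pow_dvd_pow _ (by omega)) _
      have h3 : P i ^ (e' + 1) ∣ (P i * g') ^ e' * w ^ ℓ := by
        have := dvd_sub h2 h
        rwa [sub_sub_cancel] at this
      have h4 : P i ^ e' * P i ∣ P i ^ e' * (g' ^ e' * w ^ ℓ) := by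
        rw [← pow_succ]
        have h5 : P i ^ e' * (g' ^ e' * w ^ ℓ) = (P i * g') ^ e' * w ^ ℓ := by rw [mul_pow]; ring
        rw [h5]; exact h3
      exact hwd _ ((mul_dvd_mul_iff_left (hPn _)).1 h4)
  subst heq
  have h6 : P i ∣ C c * C a * A' - g' ^ e i * w ^ ℓ := by
    have h4 : P i ^ e i * P i ∣ P i ^ e i * (C c * C a * A' - g' ^ e i * w ^ ℓ) := by
      rw [← pow_succ]
      have h5 : P i ^ e i * (C c * C a * A' - g' ^ e i * w ^ ℓ) =
        C c * (C a * (P i ^ e i * A')) - (P i * g') ^ e i * w ^ ℓ := by rw [mul_pow]; ring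
      rw [h5]; exact h
    exact (mul_dvd_mul_iff_left (hPn _)).1 h4
  have hA'm := prod_mod (Finset.univ.erase i) P (δ i) e (P i) fun j _ => hδ i j
  rw [← hA'] at hA'm
  have hg'm : P i ∣ g' - C (∏ j ∈ Finset.univ.erase i, δ i j) := by
    have := prod_mod (Finset.univ.erase i) P (δ i) (fun _ => 1) (P i) fun j _ => hδ i j
    simpa using this
  set D := ∏ j ∈ Finset.univ.erase i, δ i j with hD
  set E := ∏ j ∈ Finset.univ.erase i, δ i j ^ e j with hE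
  have hD0 : D ≠ 0 := Finset.prod_ne_zero_iff.2 fun j hj => hne i j (Finset.ne_of_mem_erase hj).symm
  have hE0 : E ≠ 0 := Finset.prod_ne_zero_iff.2 fun j hj =>
    pow_ne_zero _ (hne i j (Finset.ne_of_mem_erase hj).symm)
  have h7 : P i ∣ C (c * a * E * (D ^ e i)⁻¹) - w ^ ℓ := by
    have h8 : (AdjoinRoot.mk (P i)) (C c * C a * A') = AdjoinRoot.mk (P i) (g' ^ e i * w ^ ℓ) :=
      AdjoinRoot.mk_eq_mk.2 h6
    rw [map_mul, map_mul, map_mul, map_pow, AdjoinRoot.mk_eq_mk.2 hA'm, AdjoinRoot.mk_eq_mk.2 hg'm] at h8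
    rw [← AdjoinRoot.mk_eq_mk]
    have h8' : (AdjoinRoot.mk (P i)) (C (c * a * E)) = AdjoinRoot.mk (P i) (C (D ^ e i) * w ^ ℓ) := by
      rw [C_mul, C_mul, map_mul (AdjoinRoot.mk (P i)) (C (D ^ e i)), C_pow,
        map_pow (AdjoinRoot.mk (P i)) (C D), ← h8, map_mul, map_mul]
    have h9 : (C ((D ^ e i)⁻¹) : k[X]) * C (D ^ e i) = 1 := by
      rw [← C_mul, inv_mul_cancel₀ (pow_ne_zero _ hD0), C_1]
    have h10 : w ^ ℓ = C ((D ^ e i)⁻¹) * (C (D ^ e i) * w ^ ℓ) := by rw [← mul_assoc, h9, one_mul]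
    rw [h10, map_mul (AdjoinRoot.mk (P i)) (C ((D ^ e i)⁻¹)), ← h8', C_mul, map_mul, mul_comm]
  obtain ⟨y, hy⟩ := const_pow (hirr i) hℓ (hc i) _ w h7
  refine ⟨y, ?_, ?_⟩
  · rintro rfl
    rw [zero_pow hℓ.ne'] at hy
    exact (mul_ne_zero (mul_ne_zero (mul_ne_zero hc0 ha0) hE0) (inv_ne_zero (pow_ne_zero _ hD0))) hy
  · rw [← hy]
    field_simp

end Pool.Agent.Y691.FT2
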