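import Mathlib
import Pool.Agent.Y160.FT2.Stmts
import Pool.Agent.Y691.FT2.Lem

/-!
# The conditions for products of binomials
-/

set_option autoImplicit false
set_option linter.all false
set_option maxHeartbeats 400000

open Polynomial

namespace Pool.Agent.Y691.FT2

open Pool.Agent.Y160.FT

theorem EE_zero {k : Type} [Field k] (ℓ : ℕ) (hℓ : 0 < ℓ) (as : List k) :
    ∀ l : List (k[X] × k), (∀ x ∈ l, x.1 = 0) → EE ℓ (RingHom.id k[X]) l 0 = 0
  | [], _ => rfl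
  | (b, a) :: l, h => by
    have hb : b = 0 := h (b, a) (by simp)
    have := EE_zero ℓ hℓ as l fun x hx => h x (List.mem_cons_of_mem _ hx)
    simp only [EE, this, hb, map_zero, zero_pow hℓ.ne', mul_zero, add_zero]

theorem split_list {k : Type} [Field k] (ℓ : ℕ) (hℓ : 0 < ℓ) (β a : k) (as : List k)
    (l₁ : List (k[X] × k)) (b : k[X]) (a₁ : k) (l₂ : List (k[X] × k))
    (h : (C β, a) :: (as.map fun a' => ((0 : k[X]), a')) = l₁ ++ (b, a₁) :: l₂) :
    (a₁ = a ∨ a₁ ∈ as) ∧ b.natDegree = 0 ∧ EE ℓ (RingHom.id k[X]) l₁ b = C β := by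
  cases l₁ with
  | nil =>
    simp only [List.nil_append, List.cons.injEq, Prod.mk.injEq] at h
    obtain ⟨⟨h1, h2⟩, h3⟩ := h
    refine ⟨Or.inl h2.symm, ?_, ?_⟩
    · rw [← h1, natDegree_C]
    · simp only [EE, ← h1]
  | cons x l₁ =>
    simp only [List.cons_append, List.cons.injEq] at h
    obtain ⟨h1, h2⟩ := h
    have hmem : (b, a₁) ∈ as.map fun a' => ((0 : k[X]), a') := by
      rw [h2]; simp
    obtain ⟨a', ha', he⟩ := List.mem_map.1 hmem
    simp only [Prod.mk.injEq] at he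
    obtain ⟨he1, he2⟩ := he
    have hl : ∀ y ∈ l₁, y.1 = 0 := by
      intro y hy
      have : y ∈ as.map fun a' => ((0 : k[X]), a') := by rw [h2]; simp [hy]
      obtain ⟨a'', _, he⟩ := List.mem_map.1 this
      rw [← he]
    refine ⟨Or.inr (he2 ▸ ha'), by rw [← he1, natDegree_zero], ?_⟩
    rw [← h1, ← he1]
    simp only [EE, EE_zero ℓ hℓ as l₁ hl, zero_pow hℓ.ne', mul_zero, add_zero, RingHom.id_apply]

theorem stSplit : StSplit := by
  intro ℓ q s m N k _ ρ γ β τ a as hℓ hq hm hN hm0 hNk hβ ha has hprod hρ hγ hirρ hirγ hred hstep hrow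
  have hℓ0 : 0 < ℓ := hℓ.pos
  have hN0 : N ≠ 0 := by rintro rfl; simp at hNk
  have hq0 : 0 < q := by rw [hq]; exact pow_pos hℓ0 _
  -- degrees
  have hmon : ∀ c : k, (X ^ N + C c : k[X]).Monic := fun c => monic_X_pow_add_C c hN0
  have hdeg : ∀ c : k, (X ^ N + C c : k[X]).natDegree = N := fun c => natDegree_X_pow_add_C
  have hgdeg : (∏ i, (X ^ N + C (τ - ρ i)) : k[X]).natDegree = m * N := by
    rw [natDegree_prod_of_monic _ _ fun i _ => hmon _, Finset.sum_congr rfl fun i _ => hdeg _]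
    simp
  -- separability
  have hsep : ∀ δ : Fin m → k, Function.Injective δ → (∀ i, Irreducible (X ^ N + C (τ - δ i) : k[X])) →
      (∏ i, (X ^ N + C (τ - δ i)) : k[X]).Separable := by
    intro δ hδ hir
    refine separable_prod' (fun i _ j _ hij => ?_) fun i _ => ?_
    · have h1 : δ j - δ i ≠ 0 := sub_ne_zero.2 fun h => hij (hδ h.symm)
      refine ⟨C (δ j - δ i)⁻¹, - C (δ j - δ i)⁻¹, ?_⟩
      have h2 : (C (δ j - δ i)⁻¹ : k[X]) * C (δ j - δ i) = 1 := by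
        rw [← C_mul, inv_mul_cancel₀ h1, C_1]
      rw [← h2]
      simp only [C_sub]
      ring
    · rw [separable_iff_derivative_ne_zero (hir i)]
      simp only [derivative_add, derivative_C, add_zero, derivative_X_pow]
      exact mul_ne_zero (by rwa [Ne, C_eq_zero]) (pow_ne_zero _ X_ne_zero)
  -- the product identity
  have hcomp : ∀ δ : Fin m → k, (∏ i, (X ^ N + C (τ - δ i)) : k[X]) =
      (∏ i, (X - C (δ i)) : k[X]).comp (X ^ N + C τ) := by
    intro δ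
    rw [Polynomial.prod_comp]
    refine Finset.prod_congr rfl fun i _ => ?_
    rw [sub_comp, X_comp, C_comp, C_sub]
    ring
  have hG : (∏ i, (X ^ N + C (τ - ρ i)) : k[X]) + C β ^ q = ∏ i, (X ^ N + C (τ - γ i)) := by
    rw [hcomp, hcomp, hprod, add_comp, C_comp, C_pow]
  -- congruences
  have hmod : ∀ (u v : k), (X ^ N + C (τ - u) : k[X]) ∣ (X ^ N + C (τ - v)) - C (u - v) := by
    intro u v
    have : (X ^ N + C (τ - v) : k[X]) - C (u - v) = X ^ N + C (τ - u) := by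
      simp only [C_sub]; ring
    rw [this]
  have hcopN : ∀ c : k, ℓ.Coprime (X ^ N + C c : k[X]).natDegree := fun c => by rw [hdeg]; exact hN
  have hdp : ∀ (δ : Fin m → k) (j : Fin m), (X ^ N + C (τ - δ j) : k[X]) ∣ ∏ i, (X ^ N + C (τ - δ i)) :=
    fun δ j => Finset.dvd_prod_of_mem (fun i => (X ^ N + C (τ - δ i) : k[X])) (Finset.mem_univ j)
  refine
    { monic := monic_prod_of_monic _ _ fun i _ => hmon _
      sep := hsep ρ hρ hirρ
      cop := by rw [hgdeg]; exact Nat.Coprime.mul_right hm hN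
      redei := ?_
      ne := ?_
      deg := ?_
      cpr := ?_
      gsep := ?_
      step := ?_
      row := ?_ }
  · rintro c A hc ⟨n, hn⟩ h
    obtain ⟨a₀, e, ha₀, rfl⟩ := exists_exps (fun i => (X ^ N + C (τ - ρ i) : k[X])) hirρ A n hn
    have h1 : ∀ i j, e i ≡ e j [MOD ℓ] := by
      refine hred (c * a₀) e (mul_ne_zero hc ha₀) fun i => ?_
      obtain ⟨e', w, hw, hd⟩ := h _ (hmon _) (hirρ i) (hdp ρ i)
      exact redei_step (fun i => (X ^ N + C (τ - ρ i) : k[X]))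
        (fun i j => ρ i - ρ j) hirρ (fun i j => hmod (ρ i) (ρ j))
        (fun i j hij => sub_ne_zero.2 fun h => hij (hρ h)) hℓ0 (fun i => hcopN (τ - ρ i)) e c a₀ hc
        ha₀ i e' w hw hd
    exact triv_of_cong (fun i => (X ^ N + C (τ - ρ i) : k[X])) e a₀ ha₀ ℓ h1
  · intro l₁ b a₁ l₂ hl
    rcases (split_list ℓ hℓ0 β a as l₁ b a₁ l₂ hl).1 with h | h
    · rwa [h]
    · exact has _ h
  · intro l₁ b a₁ l₂ hl
    rw [(split_list ℓ hℓ0 β a as l₁ b a₁ l₂ hl).2.1, hgdeg, mul_zero]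
    exact Nat.mul_pos hm0 (Nat.pos_of_ne_zero hN0)
  · intro l₁ b a₁ l₂ hl
    rw [(split_list ℓ hℓ0 β a as l₁ b a₁ l₂ hl).2.2]
    refine ⟨0, C β⁻¹, ?_⟩
    rw [zero_mul, zero_add, ← C_mul, inv_mul_cancel₀ hβ, C_1]
  · intro l₁ b a₁ l₂ hl
    rw [(split_list ℓ hℓ0 β a as l₁ b a₁ l₂ hl).2.2, hG]
    exact hsep γ hγ hirγ
  · rintro l₁ b a₁ l₂ hl c A w hc ⟨n, hn⟩ h
    rw [(split_list ℓ hℓ0 β a as l₁ b a₁ l₂ hl).2.2, hG] at h
    obtain ⟨a₀, e, ha₀, rfl⟩ := exists_exps (fun i => (X ^ N + C (τ - ρ i) : k[X])) hirρ A n hn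
    have h1 : ∀ i j, e i ≡ e j [MOD ℓ] := by
      refine hstep (c * a₀) e (mul_ne_zero hc ha₀) fun j => ?_
      exact pow_of_dvd (fun i => (X ^ N + C (τ - ρ i) : k[X]))
        (fun i => γ j - ρ i) e (hirγ j) hℓ0 (hcopN (τ - γ j)) (fun i => hmod (γ j) (ρ i)) c a₀ w
        ((hdp γ j).trans h)
    exact triv_of_cong (fun i => (X ^ N + C (τ - ρ i) : k[X])) e a₀ ha₀ ℓ h1
  · rintro l₁ b a₁ l₂ hl c B hc hB h
    rw [(split_list ℓ hℓ0 β a as l₁ b a₁ l₂ hl).2.2, hG] at hB ⊢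
    obtain ⟨n, hn⟩ := hB
    obtain ⟨a₀, e, ha₀, rfl⟩ := exists_exps (fun i => (X ^ N + C (τ - γ i) : k[X])) hirγ B n hn
    have h1 : ∀ i j, e i ≡ e j [MOD ℓ] := by
      refine hrow (c * a₀) e (mul_ne_zero hc ha₀) fun i => ?_
      obtain ⟨w, hw⟩ := h _ (hmon _) (hirρ i) (hdp ρ i)
      exact pow_of_dvd (fun i => (X ^ N + C (τ - γ i) : k[X]))
        (fun j => ρ i - γ j) e (hirρ i) hℓ0 (hcopN (τ - ρ i)) (fun j => hmod (ρ i) (γ j)) c a₀ w hw
    exact triv_of_cong (fun i => (X ^ N + C (τ - γ i) : k[X])) e a₀ ha₀ ℓ h1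

end Pool.Agent.Y691.FT2
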